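import Pool.Agent.H317.GI.Stm
import Pool.Agent.H176.GR.LAT

set_option autoImplicit false

/-! Project GI (helper317), part LATK (helper825): an invariant lattice from a power of `ρ t - 1` of rank one.
The lemmas and the main construction are those of `Pool/Agent/H176/GR/LAT.lean` (helper176). -/

namespace Pool.Agent.H825.GI

open Matrix Module
open Pool.Agent.H317.GR Pool.Agent.H317.GH Pool.Agent.H317.GI Pool.Agent.H176.GR

/-- the construction for any `X = v φ` such that all the traces of `ρ g * X` are integers -/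
theorem lat_of (K : Type) [Field K] [CharZero K] (G : Type) [Group G] (n : ℕ)
    (ρ : G →* GL (Fin n) K) (hA : AI ρ) (v φ : Fin n → K) (hv : v ≠ 0) (hφ : φ ≠ 0)
    (hX : ∀ g, ∃ a : ℤ, ((ρ g).val * vecMulVec v φ).trace = a) :
    ∃ (σ : G →* GL (Fin n) ℤ) (P : GL (Fin n) K),
      ∀ g, GeneralLinearGroup.map (Int.castRingHom K) (σ g) * P = P * ρ g := by
  -- integrality
  have hint : ∀ g : G, (ρ g).val *ᵥ v ∈ LL ρ φ := by
    intro g h
    obtain ⟨a, ha⟩ := hX (h * g)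
    refine ⟨a, ?_⟩
    rw [mul_vecMulVec, trace_vecMulVec] at ha
    rw [mulVec_mulVec, ← Units.val_mul, ← map_mul, dotProduct_comm]
    exact ha
  -- a basis of covectors
  obtain ⟨hh, hB⟩ : ∃ hh : Fin n → G, IsUnit (Matrix.of fun i => φ ᵥ* (ρ (hh i)).val) := by
    obtain ⟨f, hf1, hf2, hf3⟩ := Submodule.exists_fun_fin_finrank_span_eq K
      (Set.range fun h : G => φ ᵥ* (ρ h).val)
    have hn : finrank K (Submodule.span K (Set.range fun h : G => φ ᵥ* (ρ h).val)) = n := by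
      rw [cov_span ρ hA hφ, finrank_top]
      simp
    choose hh hhe using hf1
    refine ⟨fun i => hh (Fin.cast hn.symm i), isUnit_of_span _ ?_⟩
    have e : (fun i : Fin n => φ ᵥ* (ρ (hh (Fin.cast hn.symm i))).val) = f ∘ (finCongr hn.symm) := by
      funext i
      exact hhe _
    rw [e, EquivLike.range_comp, hf2, cov_span ρ hA hφ]
  obtain ⟨BU, hBU⟩ := hB
  -- the lattice
  have hsur : ∀ w ∈ LL ρ φ, ∃ m : Fin n → ℤ, FF (BU⁻¹).val m = w := by
    intro w hw
    choose a ha using hw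
    refine ⟨fun i => a (hh i), ?_⟩
    rw [FF_apply]
    have e : (fun i => (a (hh i) : K)) = BU.val *ᵥ w := by
      funext i
      rw [hBU, ← ha, dotProduct_mulVec]
      rfl
    rw [e, mulVec_mulVec, ← Units.val_mul, inv_mul_cancel, Units.val_one, one_mulVec]
  obtain ⟨r, ⟨c⟩⟩ := Submodule.nonempty_basis_of_pid (Pi.basisFun ℤ (Fin n))
    ((LL ρ φ).comap (FF (BU⁻¹).val))
  have hrn : r ≤ n := by
    have h1 := Submodule.finrank_le ((LL ρ φ).comap (FF (BU⁻¹).val))
    rw [finrank_eq_card_basis c] at h1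
    simpa using h1
  have hcomb : ∀ w ∈ LL ρ φ, ∃ a : Fin r → ℤ, w = ∑ j, (a j : K) • FF (BU⁻¹).val (c j) := by
    intro w hw
    obtain ⟨m, hm⟩ := hsur w hw
    have hm' : m ∈ (LL ρ φ).comap (FF (BU⁻¹).val) := by
      rw [Submodule.mem_comap, hm]
      exact hw
    refine ⟨fun j => c.repr ⟨m, hm'⟩ j, ?_⟩
    have h1 := c.sum_repr ⟨m, hm'⟩
    have h2 := congrArg (fun x : ((LL ρ φ).comap (FF (BU⁻¹).val)) => FF (BU⁻¹).val (x : Fin n → ℤ)) h1
    simp only [Submodule.coe_sum, Submodule.coe_smul, map_sum, map_smul] at h2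
    rw [hm] at h2
    rw [← h2]
    refine Finset.sum_congr rfl fun j _ => ?_
    exact (Int.cast_smul_eq_zsmul K (c.repr ⟨m, hm'⟩ j) (FF (BU⁻¹).val (c j))).symm
  have hspan : Submodule.span K (Set.range fun j => FF (BU⁻¹).val (c j)) = ⊤ := by
    rw [eq_top_iff, ← vec_span ρ hA hv]
    refine Submodule.span_le.2 ?_
    rintro _ ⟨g, rfl⟩
    obtain ⟨a, ha⟩ := hcomb _ (hint g)
    simp only
    rw [ha]
    exact Submodule.sum_mem _ fun j _ => Submodule.smul_mem _ _ (Submodule.subset_span ⟨j, rfl⟩)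
  have hnr : n ≤ r := by
    have h1 := finrank_range_le_card (R := K) (fun j => FF (BU⁻¹).val (c j))
    unfold Set.finrank at h1
    rw [hspan, finrank_top] at h1
    simpa using h1
  obtain rfl : r = n := le_antisymm hrn hnr
  obtain ⟨QT, hQT⟩ := isUnit_of_span (fun j => FF (BU⁻¹).val (c j)) hspan
  have hQu : IsUnit (QT.val)ᵀ := (Matrix.isUnit_transpose _).2 QT.isUnit
  obtain ⟨Q, hQ⟩ := hQu
  have hcol : ∀ i j, Q.val i j = FF (BU⁻¹).val (c j) i := by
    intro i j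
    rw [hQ, transpose_apply, hQT]
    rfl
  have hent : ∀ g i j, ∃ a : ℤ, ((MulAut.conj Q⁻¹).toMonoidHom.comp ρ g).val i j = a := by
    intro g i j
    have h1 : FF (BU⁻¹).val (c j) ∈ LL ρ φ := (c j).2
    obtain ⟨a, ha⟩ := hcomb _ (LL_inv ρ h1 g)
    refine ⟨a i, ?_⟩
    have h2 : ((MulAut.conj Q⁻¹).toMonoidHom.comp ρ g) = Q⁻¹ * (ρ g * Q) := by
      show Q⁻¹ * ρ g * (Q⁻¹)⁻¹ = _
      rw [inv_inv, mul_assoc]
    have h3 : ∀ l, (ρ g * Q).val l j = (Q.val *ᵥ (fun i => (a i : K))) l := by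
      intro l
      have h4 : (ρ g * Q).val l j = ((ρ g).val *ᵥ FF (BU⁻¹).val (c j)) l := by
        rw [Units.val_mul, Matrix.mul_apply]
        unfold mulVec dotProduct
        exact Finset.sum_congr rfl fun x _ => by rw [hcol]
      rw [h4, ha]
      unfold mulVec dotProduct
      rw [Finset.sum_apply]
      refine Finset.sum_congr rfl fun x _ => ?_
      show (a x : K) * FF (BU⁻¹).val (c x) l = Q.val l x * (a x : K)
      rw [hcol, mul_comm]
    rw [h2, Units.val_mul, Matrix.mul_apply]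
    have h5 : ∑ l, (Q⁻¹).val i l * (ρ g * Q).val l j = ((Q⁻¹).val *ᵥ (Q.val *ᵥ (fun i => (a i : K)))) i := by
      unfold mulVec dotProduct
      refine Finset.sum_congr rfl fun l _ => ?_
      rw [h3 l]
      rfl
    rw [h5, mulVec_mulVec, ← Units.val_mul, inv_mul_cancel, Units.val_one, one_mulVec]
  obtain ⟨σ, hσ⟩ := integral_hom _ hent
  refine ⟨σ, Q⁻¹, fun g => ?_⟩
  rw [hσ]
  show Q⁻¹ * ρ g * (Q⁻¹)⁻¹ * Q⁻¹ = _
  group

/-- the traces of `ρ g * (ρ t - 1) ^ k` are integers -/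
theorem trace_pow {K : Type} [Field K] {G : Type} [Group G] {n : ℕ}
    (ρ : G →* GL (Fin n) K) (ψ : G → ℤ) (htr : ∀ g, (ρ g).val.trace = (ψ g : K)) (t : G) (k : ℕ) :
    ∀ g, ∃ a : ℤ, ((ρ g).val * ((ρ t).val - 1) ^ k).trace = a := by
  induction k with
  | zero =>
    intro g
    exact ⟨ψ g, by rw [pow_zero, mul_one, htr]⟩
  | succ k ih =>
    intro g
    obtain ⟨a, ha⟩ := ih (g * t)
    obtain ⟨b, hb⟩ := ih g
    refine ⟨a - b, ?_⟩
    have h : (ρ g).val * ((ρ t).val - 1) ^ (k + 1) =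
        (ρ (g * t)).val * ((ρ t).val - 1) ^ k - (ρ g).val * ((ρ t).val - 1) ^ k := by
      rw [map_mul, Units.val_mul, pow_succ', ← mul_assoc, mul_sub, mul_one, sub_mul]
    rw [h, trace_sub, ha, hb]
    push_cast
    rfl

theorem latk : S_LATK := by
  intro K _ _ G _ n ρ ψ hA htr t k v φ hv hφ ht
  refine lat_of K G n ρ hA v φ hv hφ fun g => ?_
  rw [← ht]
  exact trace_pow ρ ψ htr t k g

end Pool.Agent.H825.GI
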